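import Pool.Agent.Helper67.DO.StmtsT

/-!
# MP_d07457_gt, module T7: continuity on `G^p` is continuity on all `E_n^p`; extension by Tietze
-/

namespace Pool.Agent.Helper67.DO

open scoped BigOperators Real Topology

noncomputable section

theorem t7_lft (f : DiffOmega) : IsLift (lft f) := (exists_liftG f).choose_spec.1

theorem t7_cover (h1 : ST_T1) (h2 : ST_D2) (f : DiffOmega) : ∃ n : ℕ, 1 ≤ n ∧ f ∈ cls '' (AA n) := by
  obtain ⟨n, hn, hΦ⟩ := h2.2.1 (lft f) (t7_lft f)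
  exact ⟨n, hn, lft f, hΦ, h1.2.2.2.2.2 f⟩

theorem t7_cont (h1 : ST_T1) (h2 : ST_D2) (h4 : ST_T4) (h5 : ST_T5) (h6 : ST_T6) (p : ℕ)
    (b : (Fin p → DiffOmega) → ℝ) (hb : ∀ n : ℕ, 1 ≤ n → ContinuousOn b (EE n p)) : Continuous b := by
  have hT2 : T2Space DiffOmega := h5.1
  refine h6 DiffOmega (fun n => cls '' (AA (n + 1))) ?_ ?_ ?_ ?_ p b ?_
  · intro n
    exact h5.2.1 (n + 1) (by omega)
  · intro n
    exact Set.image_mono (h2.1 (n + 1) (n + 1 + 1) (by omega) (by omega))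
  · apply Set.eq_univ_of_forall
    intro f
    obtain ⟨n, hn, hf⟩ := t7_cover h1 h2 f
    refine Set.mem_iUnion.2 ⟨n - 1, ?_⟩
    show f ∈ cls '' (AA (n - 1 + 1))
    rwa [Nat.sub_add_cancel hn]
  · intro U hU
    refine h4.2 U ?_
    intro n hn Φ hΦ hc
    obtain ⟨V, hV, hUV⟩ := hU (n - 1)
    have hUV' : U ∩ cls '' (AA n) = V ∩ cls '' (AA n) := by
      have h := hUV
      simp only [Nat.sub_add_cancel hn] at h
      exact h
    have hcV : cls Φ ∈ V := by
      have h : cls Φ ∈ U ∩ cls '' (AA n) := ⟨hc, Φ, hΦ, rfl⟩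
      rw [hUV'] at h
      exact h.1
    obtain ⟨δ, hδ, h⟩ := h4.1 V hV n hn Φ hΦ hcV
    refine ⟨δ, hδ, fun Ψ hΨ hd => ?_⟩
    have h' : cls Ψ ∈ V ∩ cls '' (AA n) := ⟨h Ψ hΨ hd, Ψ, hΨ, rfl⟩
    rw [← hUV'] at h'
    exact h'.1
  · intro n
    obtain ⟨m, hm, hsub⟩ := h5.2.2.2.2.1 (n + 1) p (by omega)
    exact (hb m (by omega)).mono (fun g hg => hsub g hg)

theorem t7_tietze {X : Type*} [TopologicalSpace X] [T2Space X] {A B : Set X} (hA : IsCompact A)
    (hB : IsCompact B) (hAB : A ⊆ B) (f : X → ℝ) (hf : ContinuousOn f A) :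
    ∃ f' : X → ℝ, ContinuousOn f' B ∧ ∀ x ∈ A, f' x = f x := by
  classical
  have hBc : CompactSpace B := isCompact_iff_compactSpace.1 hB
  let A' : Set B := {x | (x : X) ∈ A}
  have hA' : IsClosed A' := hA.isClosed.preimage continuous_subtype_val
  have hFc : Continuous (fun x : A' => f ((x : B) : X)) := by
    have h1 : Continuous (fun x : A' => (⟨((x : B) : X), x.2⟩ : A)) := by fun_prop
    exact (continuousOn_iff_continuous_domRestrict.1 hf).comp h1
  obtain ⟨G, hG⟩ := ContinuousMap.exists_restrict_eq hA' (⟨fun x : A' => f ((x : B) : X), hFc⟩ : C(A', ℝ))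
  refine ⟨fun x => if h : x ∈ B then G ⟨x, h⟩ else 0, ?_, ?_⟩
  · rw [continuousOn_iff_continuous_domRestrict]
    refine G.continuous.congr (fun x => ?_)
    show G x = if h : (x : X) ∈ B then G ⟨x, h⟩ else 0
    rw [dif_pos x.2]
  · intro x hx
    have h3 := DFunLike.congr_fun hG ⟨⟨x, hAB hx⟩, hx⟩
    have h4 : G ⟨x, hAB hx⟩ = f x := h3
    show (if h : x ∈ B then G ⟨x, h⟩ else 0) = f x
    rw [dif_pos (hAB hx)]
    exact h4

theorem t7_coverEE (h1 : ST_T1) (h2 : ST_D2) (h5 : ST_T5) (n p : ℕ) (hn : 1 ≤ n) (g : Fin p → DiffOmega) :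
    ∃ k : ℕ, g ∈ EE (n + k) p := by
  choose m hm hg using fun i => t7_cover h1 h2 (g i)
  obtain ⟨N, hN, hsub⟩ := h5.2.2.2.2.1 (n + ∑ i, m i) p (by omega)
  refine ⟨N - n, ?_⟩
  have e : n + (N - n) = N := by omega
  rw [e]
  refine hsub g (fun i => ?_)
  refine Set.image_mono (h2.1 (m i) _ (hm i) ?_) (hg i)
  exact le_trans (Finset.single_le_sum (fun j _ => Nat.zero_le (m j)) (Finset.mem_univ i)) (Nat.le_add_left _ _)

theorem t7_extend (h1 : ST_T1) (h2 : ST_D2) (h4 : ST_T4) (h5 : ST_T5) (h6 : ST_T6) (n p : ℕ)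
    (b : (Fin p → DiffOmega) → ℝ) (hn : 1 ≤ n) (hb : ContinuousOn b (EE n p)) :
    ∃ b' : (Fin p → DiffOmega) → ℝ, Continuous b' ∧ ∀ g ∈ EE n p, b' g = b g := by
  classical
  have hT2 : T2Space DiffOmega := h5.1
  have step : ∀ (k : ℕ) (f : {f : (Fin p → DiffOmega) → ℝ // ContinuousOn f (EE (n + k) p)}),
      ∃ f' : {f : (Fin p → DiffOmega) → ℝ // ContinuousOn f (EE (n + (k + 1)) p)},
        ∀ g ∈ EE (n + k) p, f'.1 g = f.1 g := by
    intro k f
    obtain ⟨f', hf', he⟩ := t7_tietze (h5.2.2.1 (n + k) p (by omega)) (h5.2.2.1 (n + (k + 1)) p (by omega))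
      (h5.2.2.2.1 (n + k) (n + (k + 1)) p (by omega) (by omega)) f.1 f.2
    exact ⟨⟨f', hf'⟩, he⟩
  choose s hs using step
  let F : (k : ℕ) → {f : (Fin p → DiffOmega) → ℝ // ContinuousOn f (EE (n + k) p)} :=
    fun k => Nat.rec ⟨b, hb⟩ (fun k f => s k f) k
  have hF0 : (F 0).1 = b := rfl
  have hFs : ∀ k, ∀ g ∈ EE (n + k) p, (F (k + 1)).1 g = (F k).1 g := fun k g hg => hs k (F k) g hg
  have hmono : ∀ k j, EE (n + k) p ⊆ EE (n + (k + j)) p := fun k j =>
    h5.2.2.2.1 (n + k) (n + (k + j)) p (by omega) (by omega)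
  have hFj : ∀ k j, ∀ g ∈ EE (n + k) p, (F (k + j)).1 g = (F k).1 g := by
    intro k j g hg
    induction j with
    | zero => rfl
    | succ j ih =>
      have h := hFs (k + j) g (hmono k j hg)
      exact h.trans ih
  have hcov := t7_coverEE h1 h2 h5 n p hn
  refine ⟨fun g => (F (Nat.find (hcov g))).1 g, ?_, ?_⟩
  · have heq : ∀ k, ∀ g ∈ EE (n + k) p, (F (Nat.find (hcov g))).1 g = (F k).1 g := by
      intro k g hg
      have hle : Nat.find (hcov g) ≤ k := Nat.find_min' (hcov g) hg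
      have h := hFj (Nat.find (hcov g)) (k - Nat.find (hcov g)) g (Nat.find_spec (hcov g))
      have e : Nat.find (hcov g) + (k - Nat.find (hcov g)) = k := by omega
      rw [e] at h
      exact h.symm
    refine t7_cont h1 h2 h4 h5 h6 p _ ?_
    intro m hm
    have hsub : EE m p ⊆ EE (n + m) p := h5.2.2.2.1 m (n + m) p hm (by omega)
    exact (((F m).2.congr (heq m)).mono hsub)
  · intro g hg
    have h := hFj 0 (Nat.find (hcov g)) g hg
    rw [Nat.zero_add] at h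
    rw [← hF0]
    exact h

/-- T7: continuity on `G^p` is continuity on all `E_n^p`; extension -/
theorem st_T7 (h1 : ST_T1) (h2 : ST_D2) (h4 : ST_T4) (h5 : ST_T5) (h6 : ST_T6) : ST_T7 :=
  ⟨t7_cont h1 h2 h4 h5 h6, t7_extend h1 h2 h4 h5 h6⟩

end

end Pool.Agent.Helper67.DO
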