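import Pool.Agent.Helper67.DO.StmtsW
import Pool.Agent.Helper67.DO.BaseE

/-!
# Cauchy formula in several variables (module W2)
-/

namespace Pool.Agent.Helper67.DO

open scoped BigOperators Real Topology
open MeasureTheory

noncomputable section

/-! ### the contour lies in the big domain and avoids the small one -/

theorem w2_cP_sub {N : ℕ} {P G : Set ℤ} {w' r σ h' : ℝ} (hN : 0 < N) (hsh : Shape N P G)
    (hw' : w' < r) (hr : r < 1 / (4 * N)) (hr0 : 0 < r) (hσ' : σ < h') (p : Pc N) :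
    cP N P G r σ p ⊆ US N P G w' h' := by
  have hN' : (0 : ℝ) < N := Nat.cast_pos.2 hN
  have hq : 1 / (4 * (N : ℝ)) = (1 / N) / 4 := by field_simp
  have hinv : 0 < 1 / (N : ℝ) := by positivity
  rw [hq] at hr
  set e : ℝ := 1 / N with he
  have hk : ∀ k : ℤ, (k : ℝ) / N = k * e := fun k => by rw [he]; ring
  have hk1 : ∀ k : ℤ, ((k : ℝ) + 1) / N = k * e + e := fun k => by rw [he]; ring
  -- comparison of multiples of `e`
  have hmul : ∀ a b : ℤ, a ≤ b → (a : ℝ) * e ≤ b * e := fun a b hab => by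
    have : (a : ℝ) ≤ b := by exact_mod_cast hab
    nlinarith
  rcases p with l | l
  · rintro z ⟨hl, him, h1, h2⟩
    have e1 : ((l : ℕ) : ℝ) / N = (((l : ℕ) : ℤ) : ℝ) * e := by
      rw [← hk]; simp
    have e2 : (((l : ℕ) : ℝ) + 1) / N = (((l : ℕ) : ℤ) : ℝ) * e + e := by
      rw [← hk1]; simp
    rw [e1] at h1
    rw [e2] at h2
    generalize ((l : ℕ) : ℤ) = m at hl h1 h2
    refine ⟨by rw [him]; exact hσ', fun k hkP => ?_, fun k hkG => ?_⟩
    · rw [hk]
      rcases le_or_gt k m with h | h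
      · have := hmul k m h
        rw [lt_abs]; left; linarith
      · have := hmul (m + 1) k h
        push_cast at this
        rw [lt_abs]; right; linarith
    · rw [hk, hk1]
      rcases lt_trichotomy k m with h | h | h
      · right
        have := hmul (k + 1) m h
        push_cast at this
        linarith
      · exact absurd (h ▸ hkG) hl
      · left
        have := hmul (m + 1) k h
        push_cast at this
        linarith
  · have e1 : ((l : ℕ) : ℝ) / N = (((l : ℕ) : ℤ) : ℝ) * e := by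
      rw [← hk]; simp
    rintro z ((⟨hl, him, h1⟩ | ⟨hl, hl1, him, h1⟩) | ⟨hl, hl1, him, h1⟩)
    · rw [e1] at h1
      generalize ((l : ℕ) : ℤ) = m at hl h1
      rw [abs_le] at h1
      refine ⟨by rw [him]; exact hσ', fun k hkP => ?_, fun k hkG => ?_⟩
      · rw [hk]
        rcases lt_trichotomy k m with h | h | h
        · have := hmul (k + 1) m h
          push_cast at this
          rw [lt_abs]; left; linarith
        · exact absurd (h ▸ hkP) hl
        · have := hmul (m + 1) k h
          push_cast at this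
          rw [lt_abs]; right; linarith
      · rw [hk, hk1]
        have hkm : k ≠ m := fun h => hl (h ▸ hsh.c0 k hkG)
        have hkm1 : k + 1 ≠ m := fun h => hl (h ▸ hsh.c1 k hkG)
        rcases lt_or_ge k m with h | h
        · right
          have := hmul (k + 2) m (by omega)
          push_cast at this
          linarith
        · left
          have := hmul (m + 1) k (by omega)
          push_cast at this
          linarith
    · rw [e1] at h1
      generalize ((l : ℕ) : ℤ) = m at hl hl1 h1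
      refine ⟨lt_of_le_of_lt him hσ', fun k hkP => ?_, fun k hkG => ?_⟩
      · rw [hk, h1]
        rcases lt_or_ge k m with h | h
        · have := hmul (k + 1) m h
          push_cast at this
          rw [lt_abs]; left; linarith
        · have := hmul m k h
          rw [lt_abs]; right; linarith
      · rw [hk, hk1, h1]
        have hkm : k ≠ m - 1 := fun h => hl1 (h ▸ hkG)
        rcases lt_or_ge k m with h | h
        · right
          have := hmul (k + 2) m (by omega)
          push_cast at this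
          linarith
        · left
          have := hmul m k h
          linarith
    · rw [e1] at h1
      generalize ((l : ℕ) : ℤ) = m at hl hl1 h1
      refine ⟨lt_of_le_of_lt him hσ', fun k hkP => ?_, fun k hkG => ?_⟩
      · rw [hk, h1]
        rcases le_or_gt k m with h | h
        · have := hmul k m h
          rw [lt_abs]; left; linarith
        · have := hmul (m + 1) k h
          push_cast at this
          rw [lt_abs]; right; linarith
      · rw [hk, hk1, h1]
        have hkm : k ≠ m := fun h => hl1 (h ▸ hkG)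
        rcases lt_or_ge k m with h | h
        · right
          have := hmul (k + 1) m h
          push_cast at this
          linarith
        · left
          have := hmul (m + 1) k (by omega)
          push_cast at this
          linarith

theorem w2_per {N : ℕ} {P G : Set ℤ} (hsh : Shape N P G) {k : ℤ} (hk : k ∈ P) (t : ℤ) :
    k - t * N ∈ P := by
  induction t using Int.induction_on with
  | zero => simpa using hk
  | succ i ih =>
    rw [hsh.perP]
    rw [show k - ((i : ℤ) + 1) * N + N = k - i * N by ring]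
    exact ih
  | pred i ih =>
    rw [hsh.perP] at ih
    rw [show k - (-(i : ℤ) - 1) * N = k - (-(i : ℤ)) * N + N by ring]
    exact ih

theorem w2_avoid {N : ℕ} {P G : Set ℤ} {r w h σ : ℝ} (hN : 0 < N) (hsh : Shape N P G)
    (hrw : r < w) (hr0 : 0 < r) (hσ : h < σ) (p : Pc N) {ζ z : ℂ}
    (hζ : ζ ∈ cP N P G r σ p) (hz : z ∈ US N P G w h) : Complex.sin (π * (ζ - z)) ≠ 0 := by
  have hN' : (0 : ℝ) < N := Nat.cast_pos.2 hN
  intro h0
  rw [Complex.sin_eq_zero_iff] at h0
  obtain ⟨t, ht⟩ := h0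
  have hπ : (π : ℂ) ≠ 0 := by exact_mod_cast Real.pi_ne_zero
  have h1 : ζ - z = t := by
    have : (π : ℂ) * (ζ - z) = π * t := by rw [ht]; ring
    exact mul_left_cancel₀ hπ this
  have him : ζ.im = z.im := by
    have := congrArg Complex.im h1
    simp only [Complex.sub_im, Complex.intCast_im] at this
    linarith
  have hre : z.re = ζ.re - t := by
    have := congrArg Complex.re h1
    simp only [Complex.sub_re, Complex.intCast_re] at this
    linarith
  have hz1 : |z.im| < h := hz.1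
  have hkey : ∀ m : ℤ, m ∈ P → |ζ.re - m / N| = r → False := by
    intro m hm he
    have h2 := hz.2.1 _ (w2_per hsh hm t)
    rw [hre] at h2
    have e : ζ.re - t - ((m - t * N : ℤ) : ℝ) / N = ζ.re - m / N := by
      push_cast
      field_simp
      ring
    rw [e, he] at h2
    linarith
  rcases p with l | l
  · obtain ⟨_, h2, _, _⟩ := hζ
    rw [him] at h2
    linarith
  · rcases hζ with (⟨_, h2, _⟩ | ⟨hl, _, _, h2⟩) | ⟨hl, _, _, h2⟩
    · rw [him] at h2
      linarith
    · refine hkey _ hl ?_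
      rw [h2]
      push_cast
      rw [show ((l : ℕ) : ℝ) / N - r - ((l : ℕ) : ℝ) / N = -r by ring, abs_neg, abs_of_pos hr0]
    · refine hkey _ hl ?_
      rw [h2]
      push_cast
      rw [show ((l : ℕ) : ℝ) / N + r - ((l : ℕ) : ℝ) / N = r by ring, abs_of_pos hr0]

theorem w2_kap_cont {u : ℂ} (hu : Complex.sin (π * u) ≠ 0) : ContinuousAt kap u := by
  unfold kap Complex.cot
  have h1 : ContinuousAt (fun ζ : ℂ => Complex.cos (π * ζ)) u := by fun_prop
  have h2 : ContinuousAt (fun ζ : ℂ => Complex.sin (π * ζ)) u := by fun_prop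
  exact (h1.div h2 hu).div_const _

/-! ### linearity of the piece integrals -/

theorem w2_pI_smul (N : ℕ) (P G : Set ℤ) (r σ : ℝ) (p : Pc N) (c : ℂ) (f : ℂ → ℂ) :
    pI N P G r σ p (fun ζ => c * f ζ) = c * pI N P G r σ p f := by
  rcases p with l | l
  · simp only [pI, gapI]
    split_ifs
    · simp
    · rw [← intervalIntegral.integral_const_mul]
      congr 1
      funext x
      ring
  · simp only [pI, verL, verR, capI]
    have e1 : ∀ g : ℝ → ℂ, (∫ y in (-σ)..σ, c * g y) = c * ∫ y in (-σ)..σ, g y := fun g =>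
      intervalIntegral.integral_const_mul c g
    have e2 : ∀ a b : ℝ, ∀ g k : ℝ → ℂ, (∫ y in a..b, (c * g y - c * k y))
        = c * ∫ y in a..b, (g y - k y) := fun a b g k => by
      rw [← intervalIntegral.integral_const_mul]
      congr 1
      funext x
      ring
    split_ifs
    · simp
    · rw [e1]; ring
    · rw [e1]; ring
    · rw [e1, e1]; ring
    · rw [e2]

theorem w2_itI_smul (N : ℕ) (P G : Set ℤ) (r σ : ℝ) : ∀ (q : ℕ) (τ : Fin q → Pc N) (c : ℂ)
    (F : (Fin q → ℂ) → ℂ), itI N P G r σ q τ (fun ζ => c * F ζ) = c * itI N P G r σ q τ F := by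
  intro q
  induction q with
  | zero => intro τ c F; rfl
  | succ q ih =>
    intro τ c F
    change pI N P G r σ (τ 0) (fun ζ => itI N P G r σ q (fun i => τ i.succ)
      (fun v => c * F (Fin.cons ζ v))) = _
    simp only [ih]
    rw [w2_pI_smul]
    rfl

/-- the segments of the contour pieces -/
theorem w2_seg {N : ℕ} {P G : Set ℤ} {r σ : ℝ} (hσ : 0 < σ) :
    (∀ l : Fin N, ((l : ℕ) : ℤ) ∉ G → ∀ x ∈ Set.Icc ((((l : ℕ) : ℤ) : ℝ) / N + r)
      (((((l : ℕ) : ℤ) : ℝ) + 1) / N - r), ((x : ℂ) - σ * Complex.I) ∈ cP N P G r σ (Sum.inl l) ∧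
        ((x : ℂ) + σ * Complex.I) ∈ cP N P G r σ (Sum.inl l)) ∧
    (∀ l : Fin N, ((l : ℕ) : ℤ) ∉ P → ∀ x ∈ Set.Icc ((((l : ℕ) : ℤ) : ℝ) / N - r)
      ((((l : ℕ) : ℤ) : ℝ) / N + r), ((x : ℂ) - σ * Complex.I) ∈ cP N P G r σ (Sum.inr l) ∧
        ((x : ℂ) + σ * Complex.I) ∈ cP N P G r σ (Sum.inr l)) ∧
    (∀ l : Fin N, ((l : ℕ) : ℤ) ∈ P → (((l : ℕ) : ℤ) - 1) ∉ G → ∀ y ∈ Set.Icc (-σ) σ,
      (((((((l : ℕ) : ℤ) : ℝ) / N - r : ℝ) : ℂ)) + y * Complex.I) ∈ cP N P G r σ (Sum.inr l)) ∧
    (∀ l : Fin N, ((l : ℕ) : ℤ) ∈ P → ((l : ℕ) : ℤ) ∉ G → ∀ y ∈ Set.Icc (-σ) σ,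
      (((((((l : ℕ) : ℤ) : ℝ) / N + r : ℝ) : ℂ)) + y * Complex.I) ∈ cP N P G r σ (Sum.inr l)) := by
  refine ⟨fun l hl x hx => ?_, fun l hl x hx => ?_, fun l hl hl1 y hy => ?_, fun l hl hl1 y hy => ?_⟩
  · rw [Int.cast_natCast] at hx
    refine ⟨⟨hl, ?_, ?_, ?_⟩, ⟨hl, ?_, ?_, ?_⟩⟩
    · simp [abs_of_pos hσ]
    · simpa using hx.1
    · simpa using hx.2
    · simp [abs_of_pos hσ]
    · simpa using hx.1
    · simpa using hx.2
  · rw [Int.cast_natCast] at hx
    have hx' : |x - ((l : ℕ) : ℝ) / N| ≤ r := by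
      rw [abs_le]; constructor <;> linarith [hx.1, hx.2]
    refine ⟨Or.inl (Or.inl ⟨hl, ?_, ?_⟩), Or.inl (Or.inl ⟨hl, ?_, ?_⟩)⟩
    · simp [abs_of_pos hσ]
    · simpa using hx'
    · simp [abs_of_pos hσ]
    · simpa using hx'
  · refine Or.inl (Or.inr ⟨hl, hl1, ?_, ?_⟩)
    · have : |y| ≤ σ := abs_le.2 hy
      simpa using this
    · simp
  · refine Or.inr ⟨hl, hl1, ?_, ?_⟩
    · have : |y| ≤ σ := abs_le.2 hy
      simpa using this
    · simp

theorem w2_pI_congr {N : ℕ} {P G : Set ℤ} {r σ : ℝ} (hN : 0 < N) (hr0 : 0 < r) (hr : r < 1 / (4 * N))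
    (hσ : 0 < σ) (p : Pc N) {f g : ℂ → ℂ} (h : ∀ ζ ∈ cP N P G r σ p, f ζ = g ζ) :
    pI N P G r σ p f = pI N P G r σ p g := by
  have hN' : (0 : ℝ) < N := Nat.cast_pos.2 hN
  have hq : 1 / (4 * (N : ℝ)) = (1 / N) / 4 := by field_simp
  have hinv : 0 < 1 / (N : ℝ) := by positivity
  rw [hq] at hr
  obtain ⟨s1, s2, s3, s4⟩ := w2_seg (N := N) (P := P) (G := G) (r := r) hσ
  have hss : -σ ≤ σ := by linarith
  rcases p with l | l
  · simp only [pI, gapI]
    split_ifs with h1
    · rfl
    · have hab : (((l : ℕ) : ℤ) : ℝ) / N + r ≤ ((((l : ℕ) : ℤ) : ℝ) + 1) / N - r := by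
        rw [add_div]; linarith
      refine intervalIntegral.integral_congr fun x hx => ?_
      rw [Set.uIcc_of_le hab] at hx
      have := s1 l h1 x hx
      simp only [h _ this.1, h _ this.2]
  · simp only [pI, verL, verR, capI]
    have v1 : ((l : ℕ) : ℤ) ∈ P → (((l : ℕ) : ℤ) - 1) ∉ G →
        (∫ y in (-σ)..σ, f (((((l : ℕ) : ℤ) : ℝ) / N - r : ℝ) + y * Complex.I))
          = ∫ y in (-σ)..σ, g (((((l : ℕ) : ℤ) : ℝ) / N - r : ℝ) + y * Complex.I) := fun hl hl1 => by
      refine intervalIntegral.integral_congr fun y hy => ?_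
      rw [Set.uIcc_of_le hss] at hy
      exact h _ (s3 l hl hl1 y hy)
    have v2 : ((l : ℕ) : ℤ) ∈ P → ((l : ℕ) : ℤ) ∉ G →
        (∫ y in (-σ)..σ, f (((((l : ℕ) : ℤ) : ℝ) / N + r : ℝ) + y * Complex.I))
          = ∫ y in (-σ)..σ, g (((((l : ℕ) : ℤ) : ℝ) / N + r : ℝ) + y * Complex.I) := fun hl hl1 => by
      refine intervalIntegral.integral_congr fun y hy => ?_
      rw [Set.uIcc_of_le hss] at hy
      exact h _ (s4 l hl hl1 y hy)
    split_ifs with h1 h2 h3 h3
    · rfl
    · rw [v2 h1 h3]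
    · rw [v1 h1 h2]
    · rw [v1 h1 h2, v2 h1 h3]
    · have hab : (((l : ℕ) : ℤ) : ℝ) / N - r ≤ (((l : ℕ) : ℤ) : ℝ) / N + r := by linarith
      refine intervalIntegral.integral_congr fun x hx => ?_
      rw [Set.uIcc_of_le hab] at hx
      have := s2 l h1 x hx
      simp only [h _ this.1, h _ this.2]

theorem w2_pI_sum {N : ℕ} {P G : Set ℤ} {r σ : ℝ} (hN : 0 < N) (hr0 : 0 < r) (hr : r < 1 / (4 * N))
    (hσ : 0 < σ) (p : Pc N) {ι : Type} (S : Finset ι) (f : ι → ℂ → ℂ)
    (h : ∀ i ∈ S, ContinuousOn (f i) (cP N P G r σ p)) :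
    pI N P G r σ p (fun ζ => ∑ i ∈ S, f i ζ) = ∑ i ∈ S, pI N P G r σ p (f i) := by
  have hN' : (0 : ℝ) < N := Nat.cast_pos.2 hN
  have hq : 1 / (4 * (N : ℝ)) = (1 / N) / 4 := by field_simp
  have hinv : 0 < 1 / (N : ℝ) := by positivity
  rw [hq] at hr
  obtain ⟨s1, s2, s3, s4⟩ := w2_seg (N := N) (P := P) (G := G) (r := r) hσ
  have hss : -σ ≤ σ := by linarith
  rcases p with l | l
  · simp only [pI, gapI]
    split_ifs with h1
    · simp
    · have hab : (((l : ℕ) : ℤ) : ℝ) / N + r ≤ ((((l : ℕ) : ℤ) : ℝ) + 1) / N - r := by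
        rw [add_div]; linarith
      rw [← intervalIntegral.integral_finsetSum]
      · congr 1
        funext x
        rw [Finset.sum_sub_distrib]
      · intro i hi
        refine ContinuousOn.intervalIntegrable ?_
        rw [Set.uIcc_of_le hab]
        refine ((h i hi).comp (f := fun x : ℝ => (x : ℂ) - σ * Complex.I)
          (by fun_prop) fun x hx => (s1 l h1 x hx).1).sub
          ((h i hi).comp (f := fun x : ℝ => (x : ℂ) + σ * Complex.I)
          (by fun_prop) fun x hx => (s1 l h1 x hx).2)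
  · simp only [pI, verL, verR, capI]
    have v1 : ((l : ℕ) : ℤ) ∈ P → (((l : ℕ) : ℤ) - 1) ∉ G →
        (∫ y in (-σ)..σ, ∑ i ∈ S, f i (((((l : ℕ) : ℤ) : ℝ) / N - r : ℝ) + y * Complex.I))
          = ∑ i ∈ S, ∫ y in (-σ)..σ, f i (((((l : ℕ) : ℤ) : ℝ) / N - r : ℝ) + y * Complex.I) :=
      fun hl hl1 => by
        refine intervalIntegral.integral_finsetSum fun i hi => ?_
        refine ContinuousOn.intervalIntegrable ?_
        rw [Set.uIcc_of_le hss]
        exact (h i hi).comp (f := fun y : ℝ =>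
          ((((((l : ℕ) : ℤ) : ℝ) / N - r : ℝ) : ℂ)) + y * Complex.I)
          (by fun_prop) fun y hy => s3 l hl hl1 y hy
    have v2 : ((l : ℕ) : ℤ) ∈ P → ((l : ℕ) : ℤ) ∉ G →
        (∫ y in (-σ)..σ, ∑ i ∈ S, f i (((((l : ℕ) : ℤ) : ℝ) / N + r : ℝ) + y * Complex.I))
          = ∑ i ∈ S, ∫ y in (-σ)..σ, f i (((((l : ℕ) : ℤ) : ℝ) / N + r : ℝ) + y * Complex.I) :=
      fun hl hl1 => by
        refine intervalIntegral.integral_finsetSum fun i hi => ?_
        refine ContinuousOn.intervalIntegrable ?_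
        rw [Set.uIcc_of_le hss]
        exact (h i hi).comp (f := fun y : ℝ =>
          ((((((l : ℕ) : ℤ) : ℝ) / N + r : ℝ) : ℂ)) + y * Complex.I)
          (by fun_prop) fun y hy => s4 l hl hl1 y hy
    split_ifs with h1 h2 h3 h3
    · simp
    · rw [v2 h1 h3, Finset.mul_sum, Finset.sum_sub_distrib]
      simp
    · rw [v1 h1 h2, Finset.mul_sum, Finset.sum_sub_distrib]
      simp
    · rw [v1 h1 h2, v2 h1 h3, Finset.mul_sum, Finset.mul_sum, Finset.sum_sub_distrib]
    · have hab : (((l : ℕ) : ℤ) : ℝ) / N - r ≤ (((l : ℕ) : ℤ) : ℝ) / N + r := by linarith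
      rw [← intervalIntegral.integral_finsetSum]
      · congr 1
        funext x
        rw [Finset.sum_sub_distrib]
      · intro i hi
        refine ContinuousOn.intervalIntegrable ?_
        rw [Set.uIcc_of_le hab]
        refine ((h i hi).comp (f := fun x : ℝ => (x : ℂ) - σ * Complex.I)
          (by fun_prop) fun x hx => (s2 l h1 x hx).1).sub
          ((h i hi).comp (f := fun x : ℝ => (x : ℂ) + σ * Complex.I)
          (by fun_prop) fun x hx => (s2 l h1 x hx).2)

/-! ### the induction -/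

theorem w2_cons_cont (q : ℕ) :
    Continuous fun x : ℂ × (Fin q → ℂ) => (Fin.cons x.1 x.2 : Fin (q + 1) → ℂ) := by
  refine continuous_pi fun i => ?_
  refine Fin.cases ?_ (fun j => ?_) i
  · simpa using continuous_fst
  · simp only [Fin.cons_succ]
    exact (continuous_apply j).comp continuous_snd

theorem w2_cons_diff1 (q : ℕ) (v : Fin q → ℂ) :
    Differentiable ℂ fun x : ℂ => (Fin.cons x v : Fin (q + 1) → ℂ) := by
  refine differentiable_pi.2 fun i => ?_
  refine Fin.cases ?_ (fun j => ?_) i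
  · simp
  · simp

theorem w2_cons_diff2 (q : ℕ) (x : ℂ) :
    Differentiable ℂ fun v : Fin q → ℂ => (Fin.cons x v : Fin (q + 1) → ℂ) := by
  refine differentiable_pi.2 fun i => ?_
  refine Fin.cases ?_ (fun j => ?_) i
  · simp
  · simpa using differentiable_apply j

theorem w2_cons_mem {q : ℕ} {U : Set ℂ} {x : ℂ} (hx : x ∈ U) {v : Fin q → ℂ} (hv : v ∈ PU q U) :
    (Fin.cons x v : Fin (q + 1) → ℂ) ∈ PU (q + 1) U := by
  intro i
  refine Fin.cases ?_ (fun j => ?_) i
  · simpa using hx
  · simpa using hv j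

theorem w2_main (hW1 : ST_W1) (hW4 : ST_W4) (N : ℕ) (P G : Set ℤ) (w' r w h σ h' : ℝ) (hN : 0 < N)
    (hsh : Shape N P G) (hw' : 0 < w') (hr : w' < r) (hrw : r < w) (hw : w < 1 / (4 * N))
    (hh : 0 < h) (hσ : h < σ) (hσ' : σ < h') : ∀ (q : ℕ) (F : (Fin q → ℂ) → ℂ),
    DifferentiableOn ℂ F (PU q (US N P G w' h')) →
    (∀ z ∈ PU q (US N P G w' h'), ∀ i, F (Function.update z i (z i + 1)) = F z) →
    ∀ z ∈ PU q (US N P G w h),
    ∑ τ : Fin q → Pc N, itI N P G r σ q τ (fun ζ => F ζ * ∏ j, kap (ζ j - z j)) = F z := by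
  have hr0 : 0 < r := hw'.trans hr
  have hr1 : r < 1 / (4 * N) := hrw.trans hw
  have hσ0 : 0 < σ := hh.trans hσ
  intro q
  induction q with
  | zero =>
    intro F hF hper z hz
    rw [Fintype.sum_unique]
    change F _ * ∏ j : Fin 0, _ = F z
    rw [Finset.univ_eq_empty, Finset.prod_empty, mul_one]
    congr 1
    funext i
    exact i.elim0
  | succ q ih =>
    intro F hF hper z hz
    have hUo : IsOpen (US N P G w' h') := isOpen_US hN P G w' h'
    rw [← (Fin.consEquiv fun _ => Pc N).sum_comp, Fintype.sum_prod_type]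
    -- the inner integral
    let g : (Fin q → Pc N) → ℂ → ℂ := fun τ' ζ => itI N P G r σ q τ'
      (fun v => F (Fin.cons ζ v) * ∏ j, kap (v j - z j.succ))
    have hstep : ∀ (p : Pc N) (τ' : Fin q → Pc N),
        itI N P G r σ (q + 1) ((Fin.consEquiv fun _ => Pc N) (p, τ'))
          (fun ζ => F ζ * ∏ j, kap (ζ j - z j))
        = pI N P G r σ p (fun ζ => kap (ζ - z 0) * g τ' ζ) := by
      intro p τ'
      change pI N P G r σ p (fun ζ => itI N P G r σ q (fun i => τ' i)
        (fun v => F (Fin.cons ζ v) * ∏ j : Fin (q + 1), kap ((Fin.cons ζ v : Fin (q + 1) → ℂ) j - z j))) = _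
      congr 1
      funext ζ
      rw [← w2_itI_smul]
      congr 1
      funext v
      rw [Fin.prod_univ_succ]
      simp only [Fin.cons_zero, Fin.cons_succ]
      ring
    simp only [hstep]
    -- continuity of the inner integral
    have hgc : ∀ τ', ContinuousOn (g τ') (US N P G w' h') := by
      intro τ'
      obtain ⟨L, hL⟩ := hW4 N q 1 P G r σ hN hr0 hr1 hσ0 τ'
      let U : Set (Fin 1 → ℂ) := {x | x 0 ∈ US N P G w' h'}
      have hU : IsOpen U := hUo.preimage (continuous_apply 0)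
      have hprod : ContinuousOn (fun ζ : Fin q → ℂ => ∏ j, kap (ζ j - z j.succ))
          {ζ | ∀ j, ζ j ∈ cP N P G r σ (τ' j)} := by
        refine continuousOn_finsetProd _ fun j _ => ?_
        intro ζ hζ
        have h1 : ContinuousAt kap (ζ j - z j.succ) :=
          w2_kap_cont (w2_avoid hN hsh hrw hr0 hσ (τ' j) (hζ j) (hz j.succ))
        have h2 : ContinuousAt (fun ζ : Fin q → ℂ => ζ j - z j.succ) ζ :=
          ((continuous_apply j).sub continuous_const).continuousAt
        exact (ContinuousAt.comp (f := fun ζ : Fin q → ℂ => ζ j - z j.succ) h1 h2).continuousWithinAt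
      have hsub : ∀ ζ : Fin q → ℂ, (∀ j, ζ j ∈ cP N P G r σ (τ' j)) → ζ ∈ PU q (US N P G w' h') :=
        fun ζ hζ j => w2_cP_sub hN hsh hr hr1 hr0 hσ' (τ' j) (hζ j)
      have hK := (hL U (fun x ζ => F (Fin.cons (x 0) ζ) * ∏ j, kap (ζ j - z j.succ)) hU ?_ ?_).1
      · have h3 : ContinuousOn (fun x : ℂ => (fun _ : Fin 1 => x)) (US N P G w' h') :=
          (continuous_pi fun _ => continuous_id).continuousOn
        exact hK.continuousOn.comp h3 (fun x hx => hx)
      · refine ContinuousOn.mul ?_ ?_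
        · refine hF.continuousOn.comp (f := fun x : (Fin 1 → ℂ) × (Fin q → ℂ) =>
            (Fin.cons (x.1 0) x.2 : Fin (q + 1) → ℂ)) ?_ ?_
          · exact ((w2_cons_cont q).comp (g := fun x : ℂ × (Fin q → ℂ) =>
              (Fin.cons x.1 x.2 : Fin (q + 1) → ℂ)) (f := fun x : (Fin 1 → ℂ) × (Fin q → ℂ) =>
              (x.1 0, x.2)) (((continuous_apply 0).comp continuous_fst).prodMk
              continuous_snd)).continuousOn
          · rintro ⟨x, ζ⟩ ⟨hx, hζ⟩
            exact w2_cons_mem hx (hsub ζ hζ)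
        · exact hprod.comp continuous_snd.continuousOn fun x hx => hx.2
      · intro ζ hζ
        refine DifferentiableOn.mul_const ?_ _
        refine hF.comp (f := fun x : Fin 1 → ℂ => (Fin.cons (x 0) ζ : Fin (q + 1) → ℂ)) ?_ ?_
        · exact ((w2_cons_diff1 q ζ).comp (differentiable_apply 0)).differentiableOn
        · intro x hx
          exact w2_cons_mem hx (hsub ζ hζ)
    have hkc : ∀ p : Pc N, ContinuousOn (fun ζ : ℂ => kap (ζ - z 0)) (cP N P G r σ p) := by
      intro p ζ hζ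
      have h1 : ContinuousAt kap (ζ - z 0) := w2_kap_cont (w2_avoid hN hsh hrw hr0 hσ p hζ (hz 0))
      have h2 : ContinuousAt (fun ζ : ℂ => ζ - z 0) ζ := by fun_prop
      exact (ContinuousAt.comp (f := fun ζ : ℂ => ζ - z 0) h1 h2).continuousWithinAt
    have hsum : ∀ p : Pc N, ∑ τ' : Fin q → Pc N, pI N P G r σ p (fun ζ => kap (ζ - z 0) * g τ' ζ)
        = pI N P G r σ p (fun ζ => F (Fin.cons ζ (fun j => z j.succ)) * kap (ζ - z 0)) := by
      intro p
      rw [← w2_pI_sum hN hr0 hr1 hσ0 p Finset.univ (fun τ' ζ => kap (ζ - z 0) * g τ' ζ)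
        (fun τ' _ => (hkc p).mul ((hgc τ').mono (w2_cP_sub hN hsh hr hr1 hr0 hσ' p)))]
      refine w2_pI_congr hN hr0 hr1 hσ0 p fun ζ hζ => ?_
      have hζU : ζ ∈ US N P G w' h' := w2_cP_sub hN hsh hr hr1 hr0 hσ' p hζ
      rw [← Finset.mul_sum, mul_comm]
      congr 1
      refine ih (fun v => F (Fin.cons ζ v)) ?_ ?_ (fun j => z j.succ) (fun j => hz j.succ)
      · exact hF.comp (w2_cons_diff2 q ζ).differentiableOn fun v hv => w2_cons_mem hζU hv
      · intro v hv i
        have h3 := hper _ (w2_cons_mem hζU hv) i.succ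
        rw [Fin.cons_succ, ← Fin.cons_update] at h3
        exact h3
    simp only [hsum]
    have hlast := hW1 N P G w' r w h σ h' hN hsh hw' hr hrw hw hh hσ hσ'
      (fun ζ => F (Fin.cons ζ (fun j => z j.succ))) ?_ ?_ (z 0) (hz 0)
    · rw [hlast]
      congr 1
      funext i
      refine Fin.cases ?_ (fun j => ?_) i
      · rfl
      · rfl
    · refine hF.comp (w2_cons_diff1 q _).differentiableOn fun x hx => w2_cons_mem hx fun j => ?_
      have := hz j.succ
      exact ⟨this.1.trans (hσ.trans hσ'), fun k hk => (hr.trans hrw).trans (this.2.1 k hk), this.2.2⟩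
    · intro x hx
      have hz' : (fun j : Fin q => z j.succ) ∈ PU q (US N P G w' h') := fun j => by
        have := hz j.succ
        exact ⟨this.1.trans (hσ.trans hσ'), fun k hk => (hr.trans hrw).trans (this.2.1 k hk), this.2.2⟩
      have h3 := hper _ (w2_cons_mem hx hz') 0
      rw [Fin.cons_zero, Fin.update_cons_zero] at h3
      exact h3

theorem st_W2 (hW1 : ST_W1) (hW4 : ST_W4) : ST_W2 := by
  intro N q P G w' r w h σ h' hN hsh hw' hr hrw hw hh hσ hσ' F hF z hz
  exact w2_main hW1 hW4 N P G w' r w h σ h' hN hsh hw' hr hrw hw hh hσ hσ' q F hF.hol hF.per z hz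

end

end Pool.Agent.Helper67.DO
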